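import Pool.Agent.U188.CT.Eqv
import Pool.Agent.R395.CT.Light
import Pool.Agent.R419.CF.Low

/-!
# Descent by 3-power coverings on curves in products of the cubic curves `x³ + y³ = D`

`E_D : y² + D y = x³` is the curve 3-isogenous to `x³ + y³ = D`.  Let `D_1, …, D_n ≥ 3` be cube-free
and prime to `3` such that `E_{D_i}(ℚ)` is finite and the 3-primary part of the Tate-Shafarevich group of
`E_{D_i}` over `ℚ` is trivial.  Nothing is assumed about the other primary parts.  Let `X` be any closed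
subset of `E_{D_1} × … × E_{D_n}` over `ℚ`, for instance a curve of any genus.

Theorem.  Suppose that no `D_i` is `±2` modulo `9`.  Then the 3-adic points of `X` which survive
the descents by `3 ^ k`-coverings for all `k` are exactly the rational points of `X`, which are among
`3 ^ n` explicit points; and `X` has no rational point if and only if for some `k` no `3 ^ k`-covering of `X`
has points everywhere locally.  If some `D_i` are `±2` modulo `9` then in these components the same holds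
up to points of order two.

The hypothesis on `D` is satisfied by exactly `∏ (1 - 3^{-i}) = 56.01…` percent of the `D` of a natural
class, ordered by size, where it is equivalent to a finite elementary condition (`NoSplit`); in
particular it is satisfied by all primes that are `2` or `5` modulo `9`.

The proof.  A `3 ^ k`-covering of the Selmer set is the twist by a rational point, since its class in the
Tate-Shafarevich group is killed by `3 ^ k`; so for a surviving point `P` and all `k` there is a rational point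
`y` such that `P - y` is divisible by `3 ^ k`; there are finitely many `y`; and a 3-adic point
divisible by all powers of three is of finite order prime to three (this uses the filtration of the
3-adic points of `y² = x³ + D²/4`), so it has order `1` or `2` by a computation with the tripling formula,
and order two is possible only if `4 ∣ D²` up to cubes in `ℚ_3`, that is for `D = ±2` modulo `9`.
-/

set_option autoImplicit false

open WeierstrassCurve MvPolynomial Pool.Agent.TH954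

open scoped Classical

namespace Pool.Agent.Results.MP_d37f77_nt.CubicTwistDescent

/-- The curve `E_D : y² + D y = x³` over `ℚ`. -/
def E (D : ℕ) : WeierstrassCurve ℚ := ⟨0, 0, (D : ℚ), 0, 0⟩

/-- `E_D(ℚ)` is finite and the 3-primary part of `Ш(E_D/ℚ)` is zero. -/
def TrivialThree (D : ℕ) : Prop :=
  Finite (E D).toAffine.Point ∧
    ∀ (n : ℕ) (x : Pool.Agent.TH841.SH.D.Sha (E D)), 3 ^ n • x = 0 → x = 0

/-- `D` is at least `3`, prime to `3`, cube-free, and `E_D(ℚ)` is finite and `Ш(E_D/ℚ)[3^∞] = 0`. -/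
def Admissible (D : ℕ) : Prop :=
  3 ≤ D ∧ ¬ 3 ∣ D ∧ (∀ p : ℕ, p.Prime → ¬ p ^ 3 ∣ D) ∧ TrivialThree D

/-- The class: `D` is cube-free, prime to `3`, not `±1` modulo `9`, and has exactly one prime factor
congruent to `2` modulo `3`. -/
def Class (D : ℕ) : Prop :=
  D ≠ 0 ∧ (∀ p : ℕ, p.Prime → ¬ p ^ 3 ∣ D) ∧ ¬ 3 ∣ D ∧ D % 9 ≠ 1 ∧ D % 9 ≠ 8 ∧
    ∃ q : ℕ, q.Prime ∧ q % 3 = 2 ∧ q ∣ D ∧ ∀ p : ℕ, p.Prime → p ∣ D → p ≠ q → p % 3 = 1

/-- `D` is not a product `d₀ d₁ d₂` of coprime factors, at least two of them different from `1`,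
such that `d₁ d₂²`, `d₂ d₀²`, `d₀ d₁²` are cubes modulo the primes dividing `d₀`, `d₁`, `d₂`. -/
def NoSplit (D : ℕ) : Prop :=
  ∀ d : ZMod 3 → ℕ, ∏ c, d c = D → (∀ c c', c ≠ c' → Nat.Coprime (d c) (d c')) →
    (∀ (c : ZMod 3) (p : ℕ), p.Prime → p ∣ d c →
      ∃ x : ℤ, (p : ℤ) ∣ (d (c + 1) : ℤ) * (d (c + 2) : ℤ) ^ 2 - x ^ 3) →
    ∃ c, ∀ c', c' ≠ c → d c' = 1

/-- Homogeneous coordinates of the three points `O`, `(0, 0)`, `(0, -D)` of `E_D`. -/
def three (F : Type) [Field F] (D : ℕ) : Fin 3 → Fin 3 → F :=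
  ![![0, 1, 0], ![0, 0, 1], ![0, -(D : F), 1]]

section

variable {n : ℕ}

/-- The `L`-rational points of the closed subset `X` of `E_{D_1} × … × E_{D_n}` defined by the
equations in `S` in the homogeneous coordinates of the `n` points. -/
def Points (D : Fin n → ℕ) (S : Set (MvPolynomial (Fin n × Fin 3) ℚ))
    (L : Type) [Field L] [Algebra ℚ L] :
    Set ((i : Fin n) → ((E (D i)).baseChange L).toAffine.Point) :=
  {P | OnX S (fun i => crd (P i))}

/-- The cochains of the absolute Galois group of `ℚ` with values in the points of `E_{D_i}` over the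
algebraic closure. -/
abbrev Cochains (D : Fin n → ℕ) : Type :=
  (i : Fin n) → Pool.Agent.TH841.SH.D.Gal ℚ → AlgPt (E (D i)) ℚ

/-- The `L`-rational point `P` of `E_{D_1} × … × E_{D_n}` lifts to an `L`-rational point of the
`N`-covering given by the cocycles `ξ i`: there are points `Q i` over the algebraic closure of `L` with
`N • Q i = P i` on which the Galois group of `L` acts by translation by the `ξ i`. -/
def Lifts (D : Fin n → ℕ) (N : ℕ) (ξ : Cochains D) (L : Type) [Field L] [Algebra ℚ L]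
    (P : (i : Fin n) → ((E (D i)).baseChange L).toAffine.Point) : Prop :=
  ∃ (ι : AlgebraicClosure ℚ →ₐ[ℚ] AlgebraicClosure L) (Q : (i : Fin n) → AlgPt (E (D i)) L),
    (∀ i, N • Q i = incl (E (D i)) L (P i)) ∧
      ∀ i σ τ, Compat ι σ τ → pm (E (D i)) ι (ξ i τ) = act (E (D i)) σ (Q i) - Q i

/-- The `N`-Selmer set of `X`: the `N`-coverings of `E_{D_1} × … × E_{D_n}` over `ℚ` whose pull-backs
to `X` have points over all the fields `ℚ_p` and over `ℝ`. -/
def SelmerSet (D : Fin n → ℕ) (S : Set (MvPolynomial (Fin n × Fin 3) ℚ)) (N : ℕ) :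
    Set (Cochains D) :=
  {ξ | (∀ i, IsCocycle (E (D i)) (ξ i)) ∧ (∀ i σ, N • ξ i σ = 0) ∧
    (∀ (p : ℕ) [Fact p.Prime], ∃ P ∈ Points D S ℚ_[p], Lifts D N ξ ℚ_[p] P) ∧
    ∃ P ∈ Points D S ℝ, Lifts D N ξ ℝ P}

/-- The 3-adic point `P` survives: for all `k` it lifts to a covering in the `3 ^ k`-Selmer set of `X`. -/
def Survives (D : Fin n → ℕ) (S : Set (MvPolynomial (Fin n × Fin 3) ℚ))
    (P : (i : Fin n) → ((E (D i)).baseChange ℚ_[3]).toAffine.Point) : Prop :=
  ∀ k : ℕ, ∃ ξ ∈ SelmerSet D S (3 ^ k), Lifts D (3 ^ k) ξ ℚ_[3] P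

/-- Every component `P_i` of `P` is one of the three points, up to a point of order two if
`D_i = ±2` modulo `9`. -/
def Near (D : Fin n → ℕ) (P : (i : Fin n) → ((E (D i)).baseChange ℚ_[3]).toAffine.Point) : Prop :=
  ∀ i, ∃ (c : Fin 3) (y : ((E (D i)).baseChange ℚ_[3]).toAffine.Point),
    crd y = three ℚ_[3] (D i) c ∧ 2 • P i = 2 • y ∧ (D i % 9 ≠ 2 → D i % 9 ≠ 7 → P i = y)

end

section proof

open Pool.Agent.U188.CT

variable {n : ℕ} {D : Fin n → ℕ} (S : Set (MvPolynomial (Fin n × Fin 3) ℚ))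

lemma sel_eq (N : ℕ) :
    SelmerSet D S N = SelSetQ (fun i => Pool.Agent.Y696.CTK.ED (D i : ℚ)) S N := by
  ext ξ
  have key : ∀ (L : Type) [Field L] [Algebra ℚ L],
      (∃ P ∈ Points D S L, Lifts D N ξ L P) ↔
        Pool.Agent.R419.ST.CovPt (fun i => Pool.Agent.Y696.CTK.ED (D i : ℚ)) S N ξ L := by
    intro L _ _
    constructor
    · rintro ⟨P, hP, ι, Q, h1, h2⟩
      exact ⟨ι, P, Q, hP, h1, h2⟩
    · rintro ⟨ι, P, Q, hP, h1, h2⟩
      exact ⟨P, hP, ι, Q, h1, h2⟩
  constructor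
  · rintro ⟨h1, h2, h3, h4⟩
    exact ⟨h1, h2, fun p _ => (key _).1 (h3 p), (key _).1 h4⟩
  · rintro ⟨h1, h2, h3, h4⟩
    exact ⟨h1, h2, fun p _ => (key _).2 (h3 p), (key _).2 h4⟩

lemma surv_iff (P : (i : Fin n) → ((E (D i)).baseChange ℚ_[3]).toAffine.Point) :
    Survives D S P ↔ ∀ k : ℕ, ∃ ξ ∈ SelSetQ (fun i => Pool.Agent.Y696.CTK.ED (D i : ℚ)) S (3 ^ k),
      Pool.Agent.R419.ST.CovAt (fun i => Pool.Agent.Y696.CTK.ED (D i : ℚ)) (3 ^ k) ξ ℚ_[3] P := by
  refine forall_congr' fun k => ?_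
  rw [sel_eq]
  exact Iff.rfl

lemma near_of (hpts : ∀ i, ∀ y : ((Pool.Agent.Y696.CTK.ED (D i : ℚ)).baseChange ℚ).toAffine.Point,
      ∃ c, crd y = pt3 ℚ (D i) c)
    (P : (i : Fin n) → ((E (D i)).baseChange ℚ_[3]).toAffine.Point)
    (h : ∃ y : (i : Fin n) → ((Pool.Agent.Y696.CTK.ED (D i : ℚ)).baseChange ℚ).toAffine.Point,
      ∀ i, NearT (D i) ℚ_[3] (P i) (y i)) : Near D P := by
  obtain ⟨c, hc⟩ := near_pts hpts P h
  exact fun i => ⟨c i, hc i⟩

lemma E_eq (D : ℕ) : Pool.Agent.Y703.CT.EQ (Pool.Agent.Y703.CT.WD D) = E D := by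
  unfold Pool.Agent.Y703.CT.EQ Pool.Agent.Y703.CT.WD E WeierstrassCurve.map
  simp

lemma three_iff (D : ℕ) : TrivialThree D ↔ Pool.Agent.R395.CT.Triv3 D := by
  unfold TrivialThree Pool.Agent.R395.CT.Triv3
  rw [E_eq]

lemma class_iff (D : ℕ) : Class D ↔ Pool.Agent.Y703.CT.Cls D := by
  unfold Class Pool.Agent.Y703.CT.Cls Pool.Agent.Y703.CT.Base
  constructor
  · rintro ⟨h1, h2, h3, h4, h5, h6⟩
    exact ⟨⟨h1, h3, h2⟩, h4, h5, h6⟩
  · rintro ⟨⟨h1, h3, h2⟩, h4, h5, h6⟩
    exact ⟨h1, h2, h3, h4, h5, h6⟩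

lemma triv_iff {D : ℕ} (hD : Class D) : TrivialThree D ↔ NoSplit D := by
  rw [three_iff, Pool.Agent.R395.CT.triv3_iff ((class_iff D).1 hD)]
  exact Iff.rfl

lemma class_prime {q : ℕ} (hq : q.Prime) (h : q % 9 = 2 ∨ q % 9 = 5) : Class q := by
  refine ⟨hq.ne_zero, fun p hp hd => ?_, by omega, by omega, by omega, q, hq, by omega, dvd_rfl,
    fun p hp hd hne => absurd ((Nat.prime_dvd_prime_iff_eq hp hq).1 hd) hne⟩
  have h1 : p ∣ q := (dvd_pow_self p (by norm_num)).trans hd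
  have h2 := (Nat.prime_dvd_prime_iff_eq hp hq).1 h1
  subst h2
  have h3 := Nat.le_of_dvd hq.pos hd
  have h4 : p ^ 1 < p ^ 3 := Nat.pow_lt_pow_right hp.one_lt (by norm_num)
  rw [pow_one] at h4
  omega

/-- the condition is satisfied for prime numbers (after helper395) -/
lemma noSplit_prime {q : ℕ} (hq : q.Prime) : NoSplit q := by
  intro d hd _ _
  have h1 : ∃ c, d c ≠ 1 := by
    by_contra hcon
    push Not at hcon
    rw [Finset.prod_eq_one fun c _ => hcon c] at hd
    exact hq.one_lt.ne hd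
  obtain ⟨c, hc⟩ := h1
  refine ⟨c, fun c' hc' => ?_⟩
  by_contra h2
  have h3 : d c * d c' ∣ q := by
    rw [← hd, ← Finset.mul_prod_erase _ _ (Finset.mem_univ c)]
    exact mul_dvd_mul_left _ (Finset.dvd_prod_of_mem _
      (Finset.mem_erase.2 ⟨hc', Finset.mem_univ c'⟩))
  have h4 : d c ∣ q := (dvd_mul_right _ _).trans h3
  rcases (Nat.dvd_prime hq).1 h4 with h | h
  · exact hc h
  · rw [h] at h3
    have h5 : q * d c' ∣ q * 1 := by rwa [mul_one]
    exact h2 (Nat.dvd_one.1 (Nat.dvd_of_mul_dvd_mul_left hq.pos h5))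

end proof

/-- **Main theorem.** -/
theorem result :
    (∀ (n : ℕ) (D : Fin n → ℕ), (∀ i, Admissible (D i)) →
      (∀ i, ∀ P : (E (D i)).toAffine.Point, ∃ c, crd P = three ℚ (D i) c) ∧
      ∀ S : Set (MvPolynomial (Fin n × Fin 3) ℚ), (∀ f ∈ S, ∃ d, MultiHom d f) →
        (∀ P ∈ Points D S ℚ_[3], Survives D S P → Near D P) ∧
        ((∀ k : ℕ, (SelmerSet D S (3 ^ k)).Nonempty) → ∃ P ∈ Points D S ℚ_[3], Near D P) ∧
        ((∀ i, D i % 9 ≠ 2 ∧ D i % 9 ≠ 7) →
          (∀ P ∈ Points D S ℚ_[3], Survives D S P ↔ ∃ y ∈ Points D S ℚ,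
            ∀ i j, crd (P i) j = algebraMap ℚ ℚ_[3] (crd (y i) j)) ∧
          (Points D S ℚ = ∅ ↔ ∃ k : ℕ, SelmerSet D S (3 ^ k) = ∅))) ∧
    (∀ D : ℕ, Class D → (TrivialThree D ↔ NoSplit D)) ∧
    (∀ q : ℕ, q.Prime → q % 9 = 2 ∨ q % 9 = 5 → q ≠ 2 → Admissible q) ∧
    (∃ c : ℝ, 0 < c ∧ ∃ X₀ : ℕ, ∀ X : ℕ, X₀ ≤ X →
      c * X / Real.sqrt (Real.log X) ≤ (((Finset.Icc 1 X).filter fun D => Class D).card : ℝ)) ∧
    (0.56 : ℝ) < ∏' i : ℕ, (1 - (1 / 3 : ℝ) ^ (i + 1)) ∧
    Filter.Tendsto (fun X : ℕ =>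
        (((Finset.Icc 1 X).filter fun D : ℕ => Class D ∧ TrivialThree D).card : ℝ) /
        (((Finset.Icc 1 X).filter fun D => Class D).card : ℝ)) Filter.atTop
      (nhds (∏' i : ℕ, (1 - (1 / 3 : ℝ) ^ (i + 1)))) := by
  refine ⟨fun n D hA => ?_, fun D hD => triv_iff hD, fun q hq h h2 => ?_, ?_,
    Pool.Agent.Y461.CX.t_C3.2.2.2, ?_⟩
  · have h3 : ∀ i, ¬ 3 ∣ D i := fun i => (hA i).2.1
    have hfin : ∀ i, Finite (Pool.Agent.Y696.CTK.ED (D i : ℚ)).toAffine.Point :=
      fun i => (hA i).2.2.2.1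
    have hsha : ∀ i, Pool.Agent.U188.CT.Sha3Q (Pool.Agent.Y696.CTK.ED (D i : ℚ)) :=
      fun i => (hA i).2.2.2.2
    have hpts : ∀ i, ∀ y : ((Pool.Agent.Y696.CTK.ED (D i : ℚ)).baseChange ℚ).toAffine.Point,
        ∃ c, crd y = Pool.Agent.U188.CT.pt3 ℚ (D i) c := fun i y =>
      Pool.Agent.U188.CT.pts_Q (h3 i) (hA i).1 (hA i).2.2.1 (hfin i) y
    refine ⟨fun i P => hpts i P, fun S hS => ⟨fun P hP h => near_of hpts P
      (Pool.Agent.U188.CT.thmQ1 h3 hfin hsha S P ((surv_iff S P).1 h)), fun h => ?_,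
      fun h27 => ⟨fun P hP => ?_, ?_⟩⟩⟩
    · obtain ⟨P, hP, h1⟩ := Pool.Agent.U188.CT.thmQ2 h3 hfin hsha S hS (fun k => by
        rw [← sel_eq]
        exact h k)
      exact ⟨P, hP, near_of hpts P h1⟩
    · rw [surv_iff]
      exact Pool.Agent.U188.CT.survQ h3 h27 hfin hsha S P hP
    · have h1 := Pool.Agent.U188.CT.emptyQ h3 h27 hfin hsha S hS
      constructor
      · intro h
        by_contra hcon
        push Not at hcon
        obtain ⟨y, hy⟩ := h1.2 fun k => by
          rw [← sel_eq]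
          exact hcon k
        have h2 : y ∈ Points D S ℚ := hy
        rw [h] at h2
        exact h2
      · rintro ⟨k, hk⟩
        rw [Set.eq_empty_iff_forall_notMem]
        intro y hy
        have h2 := h1.1 ⟨y, hy⟩ k
        rw [← sel_eq, hk] at h2
        exact Set.not_nonempty_empty h2
  · have hC := class_prime hq h
    have h5 := hq.two_le
    exact ⟨by omega, hC.2.2.1, hC.2.1, (triv_iff hC).2 (noSplit_prime hq)⟩
  · have e2 : ∀ X : ℕ, (Finset.Icc 1 X).filter (fun D => Class D) =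
        (Finset.Icc 1 X).filter fun D => Pool.Agent.Y703.CT.Cls D := by
      intro X
      refine Finset.filter_congr fun D _ => ?_
      rw [class_iff]
    simp only [e2]
    exact Pool.Agent.R419.CF.low
  · have h := Pool.Agent.R419.CF.t_FIN
    unfold Pool.Agent.Y703.CX.c3 at h
    have e2 : ∀ X : ℕ, (Finset.Icc 1 X).filter (fun D => Class D) =
        (Finset.Icc 1 X).filter fun D => Pool.Agent.Y703.CT.Cls D := by
      intro X
      refine Finset.filter_congr fun D _ => ?_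
      rw [class_iff]
    have e1 : ∀ X : ℕ, (Finset.Icc 1 X).filter (fun D : ℕ => Class D ∧ TrivialThree D) =
        (Finset.Icc 1 X).filter fun D => Pool.Agent.Y703.CT.Cls D ∧
          Pool.Agent.Y703.CT.NoSplit D := by
      intro X
      refine Finset.filter_congr fun D _ => ?_
      rw [← class_iff]
      exact and_congr_right fun hC => triv_iff hC
    simp only [e1, e2]
    exact h

end Pool.Agent.Results.MP_d37f77_nt.CubicTwistDescent
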