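import Pool.Agent.Results.MP_d37f77_nt.TwistsAlongRandomWalks
import Pool.Agent.U125.NO.Seq

/-!
# Finite descent on twists of cyclic coverings along normal sequences

Let `D : b y ^ n = ∏ k, G k (z, w)` be a curve over `ℚ` and `h` a polynomial with integral coefficients as in the
starting file `TwistedCyclicCoverings` (`Admissible`), and consider for all integers `a` the twists

  `C a : b y ^ n = ∏ k, G k (z, w)`, `a x ^ m = H (z, w)`    (`m ≥ 2`, `m ∣ deg h`)

of the cyclic coverings of `D` which are ramified over the zeros of `h`, and the coverings `D δ` of `C a`, through which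
every `n`-covering of `C a` factors. `Explained n b g h a` (starting result `TwistsAlongRandomWalks`): for all `m` all
the coverings `D δ` of `C a` with points over all the fields `ℚ_p` are persistent. There `a` runs through the values
of a linear form at the points of almost every random orbit of a thin group. Here:

**Theorem.** Let `c_0, c_1, …` be a normal orbit in `ℤ^ι` (`NormalOrbit`): the orbit of an integral vector under a
finite family of integral affine maps along ANY normal sequence of indices, the family being wide (for all `q`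
prime to some `q₀` the maps are bijective modulo `q`, and the vector can be moved to at least the proportion
`ε > 0`, not depending on `q`, of all vectors modulo `q`). There is ONE set `E` of times of density zero such that
for ALL linear forms `λ ≠ 0` and ALL curves `D` and polynomials `h`, for `a = λ(c_t)` and all but finitely many `t ∉ E`:

* the twists by `a` are explained;
* if there are no persistent classes at all, the curves `C a` have no rational points, and this is shown by the
  coverings `D δ`: none of them has points over all the `ℚ_p`;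
* if `n = 2` and the zeros of `h` are one or two integers, all the coverings `D δ` with points over all the `ℚ_p` have
  rational points.

For instance, for all but finitely many `t ∉ E` the curves `y² = (z² + 51) (z² - 1)`,
`a x ^ m = (z² + 1) (z² - 17) (z² + 17)` have no rational points, although they have points over `ℝ` and all `ℚ_p`.

Examples of normal orbits: (1) `c_t = (⌊b ^ t ξ_i⌋)_i` for ANY vector `ξ` of real numbers which is normal to the base
`b ≥ 2`: so we twist the curves by the integers which appear if we write down the digits of ANY normal number; (2)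
the orbit of any vector `v ≠ 0` along ANY normal word in matrices which generate the special linear group modulo
all `q` prime to some `q₀` (generators of a thin group); (3) vectors of integers whose digits are chosen from a
restricted set of vectors.

Proof. The exceptional vectors are pronull sets (`TwistsAlongRandomWalks`), and normal orbits visit a pronull set
only at times of density zero (engine `Pool.Agent.U125.NO`); a diagonal argument gives one set `E`.
-/

set_option autoImplicit false

namespace Pool.Agent.Results.MP_d37f77_nt.NormalSequences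

open Polynomial Filter Topology Pool.Agent.R925.FD
open Pool.Agent.U125.NO (NormalOrbit Examples examples)
open Pool.Agent.Results.MP_d37f77_nt.TwistedCyclicCoverings (Admissible LocallySoluble)
open Pool.Agent.Results.MP_d37f77_nt.TwistsAlongRandomWalks (Explained)

/-- The conclusions for the twists by `a`: all locally soluble coverings `D δ` are persistent; there are none of them,
and no rational points on `C a`, if there are no persistent classes; and they have rational points, if `n = 2` and
the zeros of `h` are one or two integers. -/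
def Descent {r : ℕ} (n : ℕ) (b : ℤ) (g : Fin r → ℤ[X]) (h : ℤ[X]) (a : ℤ) : Prop :=
  Explained n b g h a ∧
  ((∀ δ, IsClass n b δ → ¬ Persistent n g h δ) → ∀ m : ℕ, 2 ≤ m → m ∣ h.natDegree →
    (¬ ∃ δ : Fin r → ℚ, IsClass n b δ ∧ LocallySoluble n m a g h δ) ∧ ¬ CurveHasPoint n m b a g h ℚ) ∧
  (∀ α₁ α₂ : ℤ, n = 2 → (∀ β : AlgebraicClosure ℚ, aeval β h = 0 ↔ β = α₁ ∨ β = α₂) →
    ∀ m : ℕ, 2 ≤ m → m ∣ h.natDegree → ∀ δ : Fin r → ℚ, IsClass n b δ → LocallySoluble n m a g h δ →
      CoveringHasPoint n m a g h δ ℚ)

theorem descent_of {r n : ℕ} {b : ℤ} {g : Fin r → ℤ[X]} {h : ℤ[X]} (hA : Admissible n b g h) {a : ℤ}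
    (ha : Explained n b g h a) : Descent n b g h a := by
  obtain ⟨-, -, h3, h4, -⟩ := Pool.Agent.Results.MP_d37f77_nt.TwistsAlongRandomWalks.result
  refine ⟨ha, fun hper m hm hmh => h3 (Fin r) n b g h hA hper a ha m hm hmh, ?_⟩
  rintro α₁ α₂ rfl hz m hm hmh δ hδ hloc
  exact h4 (Fin r) b g h α₁ α₂ hA hz a ha m hm hmh δ hδ hloc

theorem result :
    (∀ (ι : Type) [Fintype ι] [DecidableEq ι] (c : ℕ → ι → ℤ), NormalOrbit c →
      ∃ E : Set ℕ,
        Tendsto (fun N : ℕ => (({t : ℕ | t < N ∧ t ∈ E}.ncard : ℕ) : ℝ) / (N : ℝ)) atTop (𝓝 0) ∧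
        ∀ lam : ι → ℤ, lam ≠ 0 → ∀ (r n : ℕ) (b : ℤ) (g : Fin r → ℤ[X]) (h : ℤ[X]), Admissible n b g h →
          {t : ℕ | t ∉ E ∧ ¬ Descent n b g h (∑ i, lam i * c t i)}.Finite) ∧
    (Admissible 2 1 exg exh ∧ (∀ δ, IsClass 2 1 δ → ¬ Persistent 2 exg exh δ) ∧
      ∀ (a : ℤ) (m : ℕ), m ≠ 0 → CurveHasPoint 2 m 1 a exg exh ℝ ∧
        ∀ (p : ℕ) [Fact p.Prime], CurveHasPoint 2 m 1 a exg exh ℚ_[p]) ∧
    ∀ (ι : Type) [Fintype ι] [DecidableEq ι], Examples ι := by
  classical
  have hcp : Countable ℤ[X] := by
    rw [← Cardinal.mk_le_aleph0_iff]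
    exact Polynomial.cardinalMk_le_max.trans (by simp)
  obtain ⟨h1, -, -, -, h5⟩ := Pool.Agent.Results.MP_d37f77_nt.TwistsAlongRandomWalks.result
  refine ⟨fun ι _ _ c hc => ?_, h5, fun ι _ _ => examples ι⟩
  obtain ⟨E, hE1, hE2⟩ := hc.avoids.diag
    (K := {lam : ι → ℤ // lam ≠ 0} × Σ r : ℕ, ℕ × ℤ × (Fin r → ℤ[X]) × ℤ[X])
    (fun D x => Admissible D.2.2.1 D.2.2.2.1 D.2.2.2.2.1 D.2.2.2.2.2 ∧
      ¬ Explained D.2.2.1 D.2.2.2.1 D.2.2.2.2.1 D.2.2.2.2.2 (∑ i, D.1.1 i * x i)) (by
    rintro ⟨⟨lam, hlam⟩, ⟨r, n, b, g, h⟩⟩
    by_cases hA : Admissible n b g h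
    · refine (Pool.Agent.N24.RW.clo ι).1 _ _ ?_ (h1 ι lam hlam (Fin r) n b g h hA)
      rintro x ⟨-, hx⟩
      exact hx
    · refine (Pool.Agent.N24.RW.clo ι).1 _ _ ?_ (h1 ι lam hlam (Fin 2) 2 1 exg exh h5.1)
      rintro x ⟨hx, -⟩
      exact absurd hx hA)
  refine ⟨E, hE1, fun lam hlam r n b g h hA => (hE2 (⟨lam, hlam⟩, ⟨r, n, b, g, h⟩)).subset ?_⟩
  rintro t ⟨ht, ht'⟩
  exact ⟨ht, hA, fun hex => ht' (descent_of hA hex)⟩

end Pool.Agent.Results.MP_d37f77_nt.NormalSequences
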