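import Pool.Agent.Q51.EL.All

/-!
# 2-descent shows that 100% of the everywhere locally soluble quadratic twists have no rational points

Let `f ∈ ℤ[x]` be irreducible over `ℚ`, of even degree `n = 2 g + 2 ≥ 6`, with the homogenisation `F(x, w)`, and let
`C_D : D y ² = F(x, w)` be the quadratic twists of the hyperelliptic curve `y ² = f(x)` of genus `g ≥ 2`.

Let `L = ℚ[X]/(f) = ℚ(θ)` and let `a` be the leading coefficient of `f`.  The 2-coverings of `C_D` that have points
everywhere locally are the curves `x - θ w = δ η ²`, `δ ∈ L^*` with `D a N(δ)` a square, `η ∈ L`, in the coordinates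
`x, w` and those of `η` (Cassels, Schaefer, Bruin-Stoll).

**Theorem.** For all but `C (log X)^(-δ) E(X)` of the `E(X)` everywhere locally soluble curves `C_D` with squarefree
`D`, `|D| ≤ X`, the 2-Selmer set of `C_D` is empty.  So for 100 percent of the everywhere locally soluble quadratic
twists `C_D` the statement of the question is true, with `n = 2`, while `Sel^(1)` is not empty: these curves violate
the Hasse principle, and this is detected by a 2-descent.  Moreover `E(X) ≥ c X / log X * exp (∑ 1/l)` for large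
`X`, the sum over the primes `l ≤ X` modulo which `f` has a zero.

Proof.  Let `δ ∈ L` belong to a 2-covering of `C_D` with points everywhere locally.  Up to finitely many choices the
principal ideal of `δ` is a square times `∏ v0(l)`, where `l` runs through the prime divisors of `D` and `v0(l)` is a
prime of degree one above `l`; we may take `δ = α` with `|α| ≤ C |D|^(1/n)` at all infinite places and the ideal
`∏ v0(l)` outside a finite set.  The local conditions at the primes dividing `D` determine `α` modulo the other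
primes above `l`, up to a rational number and squares: if `α, α'` are divisible by the same `v0(l)`, then
`c α α'` is a square modulo all other primes above `l`, for some integer `c` prime to `l`.  The number of such
`α` is bounded by the arithmetic large sieve in dimension `n`, and it is smaller than the number of the everywhere
locally soluble twists by a power of `log X`.

(helper51, with helper52, helper91, helper154, helper198, helper239, helper241, helper247; assembled by helper899.)
-/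

set_option autoImplicit false

open Polynomial Finset

namespace Pool.Agent.Results.MP_d37f77_nt.SolubleTwists

/-- The homogenisation `F(x, w) = ∑ i, a i * x ^ i * w ^ (n - i)` of `f = ∑ i, a i * x ^ i`, where
`n = deg f`. -/
noncomputable def homog (f : ℤ[X]) {R : Type} [CommRing R] (x w : R) : R :=
  ∑ i ∈ range (f.natDegree + 1), (f.coeff i : R) * x ^ i * w ^ (f.natDegree - i)

/-- The curve `C_D : D y ² = F(x, w)` has a point over the field `F`. -/
def HasPoint (f : ℤ[X]) (D : ℤ) (F : Type) [Field F] : Prop :=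
  ∃ x w y : F, (x ≠ 0 ∨ w ≠ 0) ∧ (D : F) * y ^ 2 = homog f x w

/-- The curve `C_D` is everywhere locally soluble. -/
def Soluble (f : ℤ[X]) (D : ℤ) : Prop :=
  HasPoint f D ℝ ∧ ∀ (p : ℕ) [Fact p.Prime], HasPoint f D ℚ_[p]

/-- `f` as a polynomial over `F`. -/
noncomputable def polyOver (f : ℤ[X]) (F : Type) [Field F] : F[X] := f.map (Int.castRingHom F)

/-- The curve `x - θ w = δ η ²`, `δ = d(θ)`, has a point over the field `F`: here `θ` is the image of `X` in the
algebra `F[X]/(f)`, and `η = g(θ)` is an element of this algebra. -/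
def CoveringHasPoint (f : ℤ[X]) (d : ℚ[X]) (F : Type) [Field F] [CharZero F] : Prop :=
  ∃ (x w : F) (g : F[X]), (x ≠ 0 ∨ w ≠ 0) ∧
    polyOver f F ∣ C x - C w * X - d.map (Rat.castHom F) * g ^ 2

/-- The element `δ = d(θ)` of `L = ℚ[X]/(f)` defines a 2-covering `x - θ w = δ η ²` of `C_D`: it is not zero and
`D * a * N(δ)` is a square, where `a` is the leading coefficient of `f`. -/
def IsCovering (f : ℤ[X]) (D : ℤ) (d : ℚ[X]) : Prop :=
  IsCoprime (polyOver f ℚ) d ∧
    IsSquare (((D * f.leadingCoeff : ℤ) : ℚ) * Algebra.norm ℚ (AdjoinRoot.mk (polyOver f ℚ) d))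

/-- The 2-Selmer set of `C_D` is not empty: some 2-covering of `C_D` has points everywhere locally. -/
def SelmerNonempty (f : ℤ[X]) (D : ℤ) : Prop :=
  ∃ d : ℚ[X], IsCovering f D d ∧
    CoveringHasPoint f d ℝ ∧ ∀ (p : ℕ) [Fact p.Prime], CoveringHasPoint f d ℚ_[p]

/-- The number of the squarefree `D` with `|D| ≤ X` and the property `P`. -/
noncomputable def count (P : ℤ → Prop) (X : ℝ) : ℝ :=
  {D : ℤ | Squarefree D ∧ |(D : ℝ)| ≤ X ∧ P D}.ncard

/-- The sum of `1 / l` over the primes `l ≤ X` modulo which `f` has a zero. -/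
noncomputable def sumRoots (f : ℤ[X]) (X : ℝ) : ℝ :=
  ∑' l : {l : ℕ | l.Prime ∧ (l : ℝ) ≤ X ∧ ∃ r : ℤ, (l : ℤ) ∣ f.eval r}, (1 : ℝ) / (l : ℕ)

lemma sumRoots_eq (f : ℤ[X]) (X : ℝ) : sumRoots f X = Pool.Agent.Q51.EL.Gf f X := by
  classical
  rw [Pool.Agent.Q91.EL.Gf_eq]
  unfold sumRoots
  have hs : {l : ℕ | l.Prime ∧ (l : ℝ) ≤ X ∧ ∃ r : ℤ, (l : ℤ) ∣ f.eval r} =
      ((Pool.Agent.Q51.EL.pr X).filter (fun l : ℕ => ∃ r : ℤ, (l : ℤ) ∣ f.eval r) : Finset ℕ) := by
    ext l
    simp only [Set.mem_ofPred_eq, Finset.coe_filter, Pool.Agent.Q51.EL.pr, Finset.mem_filter,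
      Finset.mem_Icc]
    constructor
    · rintro ⟨h1, h2, h3⟩
      exact ⟨⟨⟨h1.one_le, Nat.le_floor h2⟩, h1⟩, h3⟩
    · rintro ⟨⟨⟨h1, h2⟩, h3⟩, h4⟩
      exact ⟨h3, (Nat.le_floor_iff' h3.ne_zero).1 h2, h4⟩
  rw [hs]
  exact Finset.tsum_subtype _ (fun l : ℕ => (1 : ℝ) / l)

lemma soluble_iff (f : ℤ[X]) (D : ℤ) : Soluble f D ↔ Pool.Agent.Q51.EL.ELS f D := Iff.rfl

lemma selmer_iff (f : ℤ[X]) (D : ℤ) : SelmerNonempty f D ↔ Pool.Agent.Q51.EL.Sel f D :=
  ⟨fun ⟨d, ⟨h1, h2⟩, h3, h4⟩ => ⟨d, h1, h2, h3, h4⟩, fun ⟨d, h1, h2, h3, h4⟩ => ⟨d, ⟨h1, h2⟩, h3, h4⟩⟩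

lemma count_eq (P Q : ℤ → Prop) (h : ∀ D, Q D ↔ P D) (X : ℝ) :
    (({D : ℤ | (D.natAbs : ℝ) ≤ X ∧ Squarefree D ∧ P D}.ncard : ℕ) : ℝ) = count Q X := by
  unfold count
  congr 2
  ext D
  simp only [Set.mem_ofPred_eq, Nat.cast_natAbs, Int.cast_abs, h]
  tauto

/-- Let `f ∈ ℤ[X]` be irreducible over `ℚ`, of even degree `≥ 6`.  A 2-covering of `C_D : D y ² = F(x, w)` with a point
over `F = ℝ` or `ℚ_p` at all places lies over everywhere locally soluble `C_D`, and if `C_D` has a rational point, the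
2-Selmer set is not empty.  For all but `C (log X)^(-δ) E(X)` of the `E(X)` everywhere locally soluble curves
`C_D` with squarefree `D`, `|D| ≤ X`, the 2-Selmer set is empty, so that there are no rational points, and
`E(X) ≥ c X / log X * exp (∑ 1/l)` for large `X`, the sum over the primes `l ≤ X` modulo which `f` has a zero. -/
theorem result (f : ℤ[X]) (hf : Irreducible (f.map (Int.castRingHom ℚ))) (hev : Even f.natDegree)
    (h6 : 6 ≤ f.natDegree) :
    (∀ D : ℤ, D ≠ 0 → SelmerNonempty f D → Soluble f D) ∧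
    (∀ D : ℤ, HasPoint f D ℚ → SelmerNonempty f D) ∧
    (∃ δ C : ℝ, 0 < δ ∧ ∀ X : ℝ, 3 ≤ X →
      count (SelmerNonempty f) X ≤ C * Real.log X ^ (-δ) * count (Soluble f) X) ∧
    ∃ c X₀ : ℝ, 0 < c ∧ ∀ X : ℝ, X₀ ≤ X →
      c * X / Real.log X * Real.exp (sumRoots f X) ≤ count (Soluble f) X := by
  obtain ⟨h1, h2, ⟨δ, C, hδ, h3⟩, c, X0, hc, h4⟩ := Pool.Agent.Q51.EL.main f hf hev h6
  refine ⟨fun D hD h => (soluble_iff f D).mpr (h1 D hD ((selmer_iff f D).mp h)),
    fun D h => (selmer_iff f D).mpr (h2 D h), ⟨δ, C, hδ, fun X hX => ?_⟩, c, X0, hc,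
    fun X hX => ?_⟩
  · have h5 := h3 X hX
    rw [count_eq _ (SelmerNonempty f) (selmer_iff f), count_eq _ (Soluble f) (soluble_iff f)] at h5
    exact h5
  · have h5 := h4 X hX
    rw [count_eq _ (Soluble f) (soluble_iff f)] at h5
    rw [sumRoots_eq]
    exact h5

end Pool.Agent.Results.MP_d37f77_nt.SolubleTwists
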