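import Mathlib
import Pool.Agent.U860.DS.Fam
import Pool.Agent.U860.DS.Tor
import Pool.Agent.Y971.SG.Lq

/-!
# Finite descent for subvarieties of products of elliptic curves with a rational point of order two

**The general theorem.**  Let `K` be a number field with a place `v` with `K_v = ℚ_2`, and let
`E_1, …, E_n` be elliptic curves over `ℚ` such that `E_i(K)` is finite, the 2-primary part of
`Ш(E_i/K)` has bounded exponent, and all the points of finite order of `E_i(ℚ_2)` are rational.  The
`E_i(K)` may have points of order two, and nothing is assumed about the other parts of `Ш`.  Let `X` be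
any closed subset of `E_1 × … × E_n` defined over `K`, for instance the image of a curve of genus at
least two.  (1) If `v` is a place of `K` with `K_v = ℚ_2` and if the point `P` of `X(K_v)` is the
component at `v` of a point which survives all the descents by `2 ^ k`-coverings, then `P` is a
`K`-rational point of `X`.  (2) If `X(K)` is empty then for some `k` the `2 ^ k`-Selmer set of `X` over
`K` is empty.

**The twists.**  Let `E : y² = x³ + a x² + b x` with integers `a`, `b`, such that neither `b` nor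
`a² - 4 b` is a square and such that the Selmer groups of the isogeny of degree two and of its dual are
as small as possible (the product of their orders is four), and let `0` and `(0, 0)` be the only points
of finite order of `E(ℚ_2)`; this is so if `a` is even and `b = 2` modulo `4`, for instance for
`y² = x³ + 2 x² + 2 x` (`j = 128`, no complex multiplication).  A prime is split if it is `1` modulo `8`
and a nonzero square modulo all the odd primes dividing `b (a² - 4 b)`, and inert if it is odd and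
neither `b` nor `a² - 4 b` is a square modulo it.  `D` runs over the products of different split and
inert primes, any number of each, with `D = 1` modulo `8` and `D` a square modulo all the odd primes
dividing `b (a² - 4 b)`; there are at least `c X / log X` such `D` up to `X`.  By the theorem of the
projects GD and GE (`Pool/Agent/U115/GE`), for exactly the proportion
`∏_{i ≥ 0} (1 - 2^{-(2i+1)}) = 0.4194...` of these `D` the group `E_D(ℚ)` is finite and
`Ш(E_D/ℚ)[2^∞] = 0`.  So (1) and (2) are true over `ℚ` for ALL closed subsets of ALL products of such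
twists `E_D`, also for different `(a, b)`.

The proof of the general theorem.  A `2 ^ k`-covering with points over all completions gives a class in
`Ш(E_i/K)` killed by `2 ^ k`, so `M` times its cocycle is the coboundary of a point `R` with
`2 ^ k R` in `E_i(K)`; if `P` lifts to the covering then `#E_i(K) · M · P` is divisible by `2 ^ k` in
`E_i(K_v)`.  As `K_v = ℚ_2`, a point with a multiple divisible by all powers of two has finite order, so
it is rational.  For (2) we use the compactness of `X(ℚ_2)`.  This extends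
`Pool/Agent/R425/D` of the starting library, where the 2-Selmer groups are trivial.

Authors of the projects GD and GE: helper115 (plan, descent, statements), helper295, helper439, helper2,
helper643, helper674, helper234, helper158, helper998, helper798, helper796, helper739.
-/

set_option autoImplicit false

open IsDedekindDomain NumberField WeierstrassCurve MvPolynomial Pool.Agent.TH954
open Pool.Agent.TH841.NF.D (Sha)

open scoped Classical

namespace Pool.Agent.Results.MP_d37f77_nt.TwistsWithTwoIsogenyDescent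

section descent

variable {K : Type} [Field K] {n : ℕ}

/-- The `L`-rational points of the closed subset `X` of `E_1 × … × E_n` defined by the equations in
`S` in the homogeneous coordinates of the `n` points. -/
def LocalPoints (E : Fin n → WeierstrassCurve K) (S : Set (MvPolynomial (Fin n × Fin 3) K))
    (L : Type) [Field L] [Algebra K L] : Set ((i : Fin n) → ((E i).baseChange L).toAffine.Point) :=
  {P | OnX S (fun i => crd (P i))}

/-- The `K`-rational points of `X`. -/
def RationalPoints (E : Fin n → WeierstrassCurve K) (S : Set (MvPolynomial (Fin n × Fin 3) K)) :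
    Set ((i : Fin n) → (E i).toAffine.Point) :=
  {y | ∀ f ∈ S, eval (fun p => crd (y p.1) p.2) f = 0}

/-- The `L`-rational point `P` of `E_1 × … × E_n` lifts to an `L`-rational point of the `N`-covering
given by the cocycles `ξ i`: there are points `Q i` over the algebraic closure with `N • Q i = P i`
on which the Galois group of `L` acts by translation by the `ξ i`. -/
def Lifts (E : Fin n → WeierstrassCurve K) (N : ℕ)
    (ξ : (i : Fin n) → (AlgebraicClosure K ≃ₐ[K] AlgebraicClosure K) → AlgPt (E i) K)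
    (L : Type) [Field L] [Algebra K L] (P : (i : Fin n) → ((E i).baseChange L).toAffine.Point) :
    Prop :=
  ∃ (ι : AlgebraicClosure K →ₐ[K] AlgebraicClosure L) (Q : (i : Fin n) → AlgPt (E i) L),
    (∀ i, N • Q i = incl (E i) L (P i)) ∧
      ∀ i σ τ, Compat ι σ τ → pm (E i) ι (ξ i τ) = act (E i) σ (Q i) - Q i

/-- The `N`-Selmer set of `X`: the `N`-coverings of `E_1 × … × E_n` over `K` whose pull-backs to `X`
have points over all the completions of `K`. -/
def SelmerSet [NumberField K] (E : Fin n → WeierstrassCurve K)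
    (S : Set (MvPolynomial (Fin n × Fin 3) K)) (N : ℕ) :
    Set ((i : Fin n) → (AlgebraicClosure K ≃ₐ[K] AlgebraicClosure K) → AlgPt (E i) K) :=
  {ξ | (∀ i, IsCocycle (E i) (ξ i)) ∧ (∀ i σ, N • ξ i σ = 0) ∧
    (∀ v : HeightOneSpectrum (𝓞 K), ∃ P ∈ LocalPoints E S (v.adicCompletion K),
      Lifts E N ξ (v.adicCompletion K) P) ∧
    ∀ w : InfinitePlace K, ∃ P ∈ LocalPoints E S w.Completion, Lifts E N ξ w.Completion P}

end descent

/-- `W` is an elliptic curve `y² = x³ + a x + b` with integral coefficients. -/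
def IsShort (W : WeierstrassCurve ℤ) : Prop := (W.a₁ = 0 ∧ W.a₂ = 0 ∧ W.a₃ = 0) ∧ W.Δ ≠ 0

/-- All the points of finite order of `W(ℚ_2)` are rational. -/
def TorsionRational (W : WeierstrassCurve ℤ) : Prop :=
  ∀ (P : (W.map (Int.castRingHom ℚ_[2])).toAffine.Point) (m : ℕ), 0 < m → m • P = 0 →
    ∃ y : (W.map (Int.castRingHom ℚ)).toAffine.Point, ∀ j, crd P j = algebraMap ℚ ℚ_[2] (crd y j)

section

variable (K : Type) [Field K] [NumberField K]

/-- `W(K)` is finite and the 2-primary part of `Ш(W/K)` has bounded exponent. -/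
def FiniteOver (W : WeierstrassCurve ℤ) : Prop :=
  Finite (W.map (Int.castRingHom K)).toAffine.Point ∧ ∃ M : ℕ, 0 < M ∧
    ∀ (j : ℕ) (s : Sha (W.map (Int.castRingHom K))), 2 ^ j • s = 0 → M • s = 0

/-- `v` is a place of `K` above two of residue degree one and not ramified, so that `K_v = ℚ_2`. -/
def IsTwoAdic (v : HeightOneSpectrum (𝓞 K)) : Prop :=
  Ideal.absNorm v.asIdeal = 2 ∧ v.valuation K ((2 : ℕ) : K) = WithZero.exp (-1 : ℤ)

/-- For every closed subset `X` of `W_1 × … × W_n` defined over `K`: (1) if `K_v = ℚ_2` then a point of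
`X(K_v)` which lifts, for every `k`, to an element of the `2 ^ k`-Selmer set is a `K`-rational point of
`X`; (2) if `X(K)` is empty then some `2 ^ k`-Selmer set of `X` is empty. -/
def DescentDecides {n : ℕ} (W : Fin n → WeierstrassCurve ℤ) : Prop :=
  ∀ S : Set (MvPolynomial (Fin n × Fin 3) K), (∀ f ∈ S, ∃ d, MultiHom d f) →
    (∀ v : HeightOneSpectrum (𝓞 K), IsTwoAdic K v →
      ∀ P ∈ LocalPoints (fun i => (W i).map (Int.castRingHom K)) S (v.adicCompletion K),
        (∀ k : ℕ, ∃ ξ ∈ SelmerSet (fun i => (W i).map (Int.castRingHom K)) S (2 ^ k),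
          Lifts (fun i => (W i).map (Int.castRingHom K)) (2 ^ k) ξ (v.adicCompletion K) P) →
        ∃ y ∈ RationalPoints (fun i => (W i).map (Int.castRingHom K)) S,
          ∀ i j, crd (P i) j = algebraMap K (v.adicCompletion K) (crd (y i) j)) ∧
    (RationalPoints (fun i => (W i).map (Int.castRingHom K)) S = ∅ →
      ∃ k : ℕ, SelmerSet (fun i => (W i).map (Int.castRingHom K)) S (2 ^ k) = ∅)

end

/-- `y² = x³ + a D x² + b D² x` -/
def E (a b : ℤ) (D : ℕ) : WeierstrassCurve ℚ := ⟨0, (a : ℚ) * (D : ℚ), 0, (b : ℚ) * (D : ℚ) ^ 2, 0⟩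

/-- the short equation `Y² = X³ - 27 (a² - 3 b) D² X + 27 (2 a³ - 9 a b) D³` of `E a b D`, with
`X = 9 x + 3 a D`, `Y = 27 y` -/
def short (a b : ℤ) (D : ℕ) : WeierstrassCurve ℤ :=
  ⟨0, 0, 0, -27 * (a ^ 2 - 3 * b) * (D : ℤ) ^ 2, 27 * (2 * a ^ 3 - 9 * a * b) * (D : ℤ) ^ 3⟩

/-- the quartic of `d` has a nontrivial point over `K` -/
def Quartic (K : Type) [Field K] (a b d : ℤ) : Prop :=
  ∃ N M e : K, (M ≠ 0 ∨ e ≠ 0) ∧
    N ^ 2 = (d : K) * M ^ 4 + (a : K) * M ^ 2 * e ^ 2 + (b : K) / (d : K) * e ^ 4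

/-- the Selmer group of the isogeny of degree two of `y² = x³ + a x² + b x` -/
def Sel (a b : ℤ) : Set ℤ :=
  {d | Squarefree d ∧ Quartic ℝ a b d ∧ ∀ (p : ℕ) [Fact p.Prime], Quartic ℚ_[p] a b d}

/-- `0` and `(0, 0)` are the only points of finite order of `E(ℚ_2)` -/
def TwoAdicTorsion (a b : ℤ) : Prop :=
  ∀ (P : (⟨0, (a : ℚ_[2]), 0, (b : ℚ_[2]), 0⟩ : WeierstrassCurve ℚ_[2]).toAffine.Point) (m : ℕ),
    0 < m → m • P = 0 → P = 0 ∨ ∃ h, P = .some 0 0 h

/-- the conditions on the curve `E : y² = x³ + a x² + b x` -/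
structure Admissible (a b : ℤ) : Prop where
  nb : ¬ IsSquare b
  nc : ¬ IsSquare (a ^ 2 - 4 * b)
  sel : (Sel a b).ncard * (Sel (-2 * a) (a ^ 2 - 4 * b)).ncard = 4
  tors : TwoAdicTorsion a b

/-- `n` is `1` modulo `8` and a nonzero square modulo the odd primes dividing `b (a² - 4 b)` -/
def Res (a b : ℤ) (n : ℕ) : Prop := n % 8 = 1 ∧ ∀ l : ℕ, l.Prime → l ≠ 2 →
  (l : ℤ) ∣ b * (a ^ 2 - 4 * b) → ¬ l ∣ n ∧ IsSquare (n : ZMod l)

/-- the inert primes -/
def Inert (a b : ℤ) (q : ℕ) : Prop := q ≠ 2 ∧ ¬ IsSquare (b : ZMod q) ∧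
  ¬ IsSquare ((a ^ 2 - 4 * b : ℤ) : ZMod q)

/-- the class of the numbers `D` -/
def Class (a b : ℤ) (D : ℕ) : Prop := Squarefree D ∧ Res a b D ∧
  ∀ p ∈ D.primeFactors, Res a b p ∨ Inert a b p

/-- `E_D(ℚ)` is finite and `Ш(E_D/ℚ)[2^∞] = 0` -/
def TrivialTwo (a b : ℤ) (D : ℕ) : Prop :=
  Finite (E a b D).toAffine.Point ∧ ∀ (n : ℕ) (x : Sha (E a b D)), 2 ^ n • x = 0 → x = 0

section

variable {K : Type} [Field K] [NumberField K] {n : ℕ}

lemma sel_iff (E : Fin n → WeierstrassCurve K) (S : Set (MvPolynomial (Fin n × Fin 3) K)) (N : ℕ) :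
    SelmerSet E S N = Pool.Agent.R425.D.SelSet E S N := by
  ext ξ
  have key : ∀ (L : Type) [Field L] [Algebra K L],
      (∃ P ∈ LocalPoints E S L, Lifts E N ξ L P) ↔ Pool.Agent.R425.D.CovPt E S N ξ L := by
    intro L _ _
    constructor
    · rintro ⟨P, hP, ι, Q, h1, h2⟩
      exact ⟨ι, P, Q, hP, h1, h2⟩
    · rintro ⟨ι, P, Q, hP, h1, h2⟩
      exact ⟨P, hP, ι, Q, h1, h2⟩
  constructor
  · rintro ⟨h1, h2, h3, h4⟩
    exact ⟨h1, h2, fun v => (key _).1 (h3 v), fun w => (key _).1 (h4 w)⟩
  · rintro ⟨h1, h2, h3, h4⟩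
    exact ⟨h1, h2, fun v => (key _).2 (h3 v), fun w => (key _).2 (h4 w)⟩

theorem general (W : Fin n → WeierstrassCurve ℤ) (hW : ∀ i, IsShort (W i))
    (hR : ∀ i, TorsionRational (W i)) (hF : ∀ i, FiniteOver K (W i))
    (hv : ∃ v : HeightOneSpectrum (𝓞 K), IsTwoAdic K v) : DescentDecides K W := by
  choose M hM1 hM2 using fun i => (hF i).2
  intro S hS
  refine ⟨fun v hv P hP h => ?_, fun hX => ?_⟩
  · obtain ⟨y, hy1, hy2⟩ := Pool.Agent.U860.DS.thm1 (fun i => (hW i).1) (fun i => (hW i).2) hR M hM1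
      (fun i => (hF i).1) hM2 S v hv.1 hv.2 P hP (fun k => by
        obtain ⟨ξ, hξ, h1⟩ := h k
        exact ⟨ξ, by rw [← sel_iff]; exact hξ, h1⟩)
    exact ⟨y, hy1, hy2⟩
  · obtain ⟨v, hv1, hv2⟩ := hv
    obtain ⟨k, hk⟩ := Pool.Agent.U860.DS.thm2 (fun i => (hW i).1) (fun i => (hW i).2) hR M hM1
      (fun i => (hF i).1) hM2 v hv1 hv2 S hS
      (fun y hy => by
        have : y ∈ (∅ : Set _) := by
          rw [← hX]
          exact hy
        exact this)
    exact ⟨k, by rw [sel_iff]; exact hk⟩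

end

theorem class_iff (a b : ℤ) (D : ℕ) : Class a b D ↔ Pool.Agent.U115.GE.Class a b D := by
  refine and_congr_right fun _ => and_congr_right fun _ => forall₂_congr fun p hp => ?_
  have hpp := Nat.prime_of_mem_primeFactors hp
  exact or_congr ⟨fun h => ⟨hpp, h⟩, fun h => h.2⟩ ⟨fun h => ⟨hpp, h⟩, fun h => h.2⟩

/-- **Finite descent for products of elliptic curves with a rational point of order two.** -/
theorem result :
    -- the general theorem
    (∀ (K : Type) [Field K] [NumberField K] (n : ℕ) (W : Fin n → WeierstrassCurve ℤ),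
      (∀ i, IsShort (W i)) → (∀ i, TorsionRational (W i)) → (∀ i, FiniteOver K (W i)) →
      (∃ v : HeightOneSpectrum (𝓞 K), IsTwoAdic K v) → DescentDecides K W) ∧
    (∀ v : HeightOneSpectrum (𝓞 ℚ), ((2 : ℕ) : 𝓞 ℚ) ∈ v.asIdeal → IsTwoAdic ℚ v) ∧
    -- the twists
    (∀ (n : ℕ) (a b : Fin n → ℤ) (D : Fin n → ℕ), (∀ i, Admissible (a i) (b i)) →
      (∀ i, Class (a i) (b i) (D i)) → (∀ i, TrivialTwo (a i) (b i) (D i)) →
      DescentDecides ℚ (fun i => short (a i) (b i) (D i))) ∧
    -- the number of the twists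
    (∀ a b : ℤ, Admissible a b →
      (∃ (c : ℝ) (X₀ : ℕ), 0 < c ∧ ∀ X : ℕ, X₀ ≤ X →
        c * X / Real.log X ≤ (((Finset.Icc 1 X).filter fun D => Class a b D).card : ℝ)) ∧
      Filter.Tendsto (fun X : ℕ =>
        (((Finset.Icc 1 X).filter fun D => Class a b D ∧ TrivialTwo a b D).card : ℝ) /
          (((Finset.Icc 1 X).filter fun D => Class a b D).card : ℝ)) Filter.atTop
        (nhds (∏' i : ℕ, (1 - (1 / 2 : ℝ) ^ (2 * i + 1))))) ∧
    0.4194 < ∏' i : ℕ, (1 - (1 / 2 : ℝ) ^ (2 * i + 1)) ∧
    ∏' i : ℕ, (1 - (1 / 2 : ℝ) ^ (2 * i + 1)) < 0.4195 ∧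
    -- the local condition, and an example
    (∀ a b : ℤ, Even a → b % 4 = 2 → TwoAdicTorsion a b) ∧ Admissible 2 2 := by
  have h22 : TwoAdicTorsion 2 2 := Pool.Agent.U860.DS.onlyTwo_of (by decide) (by decide)
  obtain ⟨-, -, -, c1, c2⟩ := Pool.Agent.Y948.CQ.t_C2
  refine ⟨fun K _ _ n W hW hR hF hv => general W hW hR hF hv,
    fun v hv => Pool.Agent.U860.DS.q_two v hv, fun n a b D hA hC hT => ?_, fun a b hA => ⟨?_, ?_⟩,
    c1, c2, fun a b ha hb => Pool.Agent.U860.DS.onlyTwo_of ha hb, ?_⟩
  · obtain ⟨v, hv⟩ := Pool.Agent.U860.DS.exists_two' ℚ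
    have hD0 : ∀ i, D i ≠ 0 := fun i => (hC i).1.ne_zero
    refine general _ (fun i => ⟨⟨rfl, rfl, rfl⟩, Pool.Agent.U860.DS.sh_delta_ne
      (Pool.Agent.U860.DS.b_ne (hA i).nb) (Pool.Agent.U860.DS.c_ne (hA i).nc) (hD0 i)⟩)
      (fun i => ?_) (fun i => ?_) ⟨v, Pool.Agent.U860.DS.q_two v hv⟩
    · have h8 : ((D i : ℕ) : ℤ) % 8 = 1 := by
        have := (hC i).2.1.1
        omega
      obtain ⟨s, hs⟩ := Pool.Agent.Y971.SG.Lq.padic_sq2 h8
      have hs' : s ^ 2 = ((D i : ℕ) : ℚ_[2]) := by
        rw [sq, ← hs]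
        push_cast
        rfl
      have hs0 : s ≠ 0 := by
        rintro rfl
        have h1 : ((D i : ℕ) : ℚ_[2]) ≠ 0 := by exact_mod_cast hD0 i
        exact h1 (by rw [← hs']; norm_num)
      exact Pool.Agent.U860.DS.torRat_of (Pool.Agent.U860.DS.b_ne (hA i).nb)
        (Pool.Agent.U860.DS.c_ne (hA i).nc) (hA i).tors hs' hs0
    · obtain ⟨h1, h2⟩ := Pool.Agent.U860.DS.short_of_triv (hA i).nb (hA i).nc (hD0 i) (hT i)
      exact ⟨h1, 1, one_pos, h2⟩
  · obtain ⟨c, X₀, hc, h⟩ := Pool.Agent.U860.DS.low hA.nb hA.nc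
    refine ⟨c, X₀, hc, fun X hX => ?_⟩
    have h1 : ((Finset.Icc 1 X).filter fun D => Class a b D) =
        (Finset.Icc 1 X).filter fun D => Pool.Agent.U115.GE.Class a b D :=
      Finset.filter_congr fun D _ => class_iff a b D
    rw [h1]
    exact h X hX
  · refine (Pool.Agent.U860.DS.dens_triv hA.nb hA.nc hA.sel).congr fun X =>
      congrArg₂ (fun a b : ℕ => (a : ℝ) / (b : ℝ)) ?_ ?_
    · refine congrArg Finset.card (Finset.filter_congr fun D _ => ?_)
      exact and_congr_left fun _ => (class_iff a b D).symm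
    · exact congrArg Finset.card (Finset.filter_congr fun D _ => (class_iff a b D).symm)
  · refine ⟨?_, ?_, Pool.Agent.U860.DS.sel_prod, h22⟩
    · rintro ⟨r, hr⟩
      have h1 : r.natAbs * r.natAbs = 2 := by
        have := congrArg Int.natAbs hr
        rw [Int.natAbs_mul] at this
        exact this.symm
      have h2 : r.natAbs ≤ 1 := by nlinarith
      interval_cases r.natAbs <;> omega
    · rintro ⟨r, hr⟩
      nlinarith [mul_self_nonneg r]

end Pool.Agent.Results.MP_d37f77_nt.TwistsWithTwoIsogenyDescent
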